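import Pool.Agent.H40.GameLow

set_option autoImplicit false

namespace Pool.Agent.Results.MP_def589_lc.PrefixIndepSeparation

open Pool.Agent.H40.Game

/-- A prefix-independent condition over a finite set of colours with finite general memory and
infinite chromatic memory. -/
theorem result : ∃ (C : Type) (_ : Fintype C) (_ : Nonempty C) (W : Set (ℕ → C)),
    PrefixIndependent W ∧ genMem W < ⊤ ∧ chrMem W = ⊤ :=
  ⟨Col, inferInstance, ⟨.a⟩, Wpi, prefixIndep_Wpi, genMem_lt_top genMem_pi,
    chrMem_eq_top chr_pi⟩

end Pool.Agent.Results.MP_def589_lc.PrefixIndepSeparation
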